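import Mathlib

/-!
The ring `k[x_0, x_1, x_2] / (F, G)` of a complete intersection of type `(a, b)`: there is no socle
below degree `a + b - 3` in the first local cohomology, in elementary terms.
-/

set_option autoImplicit false

namespace Pool.Agent.R862.GU

open MvPolynomial

universe u

variable {k : Type u} [Field k]

theorem comp_mul_of_lt {σ : Type} {f v : MvPolynomial σ k} {e j : ℕ} (hf : f.IsHomogeneous e)
    (hj : j < e) : homogeneousComponent j (f * v) = 0 := by
  conv_lhs => rw [← sum_homogeneousComponent v, Finset.mul_sum, map_sum]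
  refine Finset.sum_eq_zero fun i _ => ?_
  rw [homogeneousComponent_of_mem (hf.mul (homogeneousComponent_isHomogeneous i v))]
  rw [if_neg (by omega)]

theorem comp_mul {σ : Type} {f v : MvPolynomial σ k} {e j : ℕ} (hf : f.IsHomogeneous e) :
    homogeneousComponent (e + j) (f * v) = f * homogeneousComponent j v := by
  conv_lhs => rw [← sum_homogeneousComponent v, Finset.mul_sum, map_sum]
  have h1 : ∀ i ∈ Finset.range (v.totalDegree + 1),
      homogeneousComponent (e + j) (f * homogeneousComponent i v) =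
      if i = j then f * homogeneousComponent j v else 0 := by
    intro i _
    rw [homogeneousComponent_of_mem (hf.mul (homogeneousComponent_isHomogeneous i v))]
    by_cases h : i = j
    · subst h; simp
    · rw [if_neg (by omega), if_neg h]
  rw [Finset.sum_congr rfl h1, Finset.sum_ite_eq']
  split_ifs with h
  · rfl
  · rw [homogeneousComponent_eq_zero j v (by simpa using h), mul_zero]

/-- A form of degree `e` in the ideal `(F, G)` is a combination with forms of the right
degrees. -/
theorem decomp {σ : Type} {F G f : MvPolynomial σ k} {a b e : ℕ} (hF : F.IsHomogeneous a)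
    (hG : G.IsHomogeneous b) (hf : f.IsHomogeneous e) (h : f ∈ Ideal.span {F, G}) :
    ∃ α β : MvPolynomial σ k, f = α * F + β * G ∧ (α = 0 ∨ (a ≤ e ∧ α.IsHomogeneous (e - a))) ∧
      (β = 0 ∨ (b ≤ e ∧ β.IsHomogeneous (e - b))) := by
  obtain ⟨p, q, hpq⟩ := Ideal.mem_span_pair.1 h
  have hc : f = homogeneousComponent e (F * p) + homogeneousComponent e (G * q) := by
    rw [← map_add, mul_comm F, mul_comm G, hpq]
    rw [homogeneousComponent_of_mem hf, if_pos rfl]
  have key : ∀ (H r : MvPolynomial σ k) (c : ℕ), H.IsHomogeneous c →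
      ∃ γ, homogeneousComponent e (H * r) = γ * H ∧
        (γ = 0 ∨ (c ≤ e ∧ γ.IsHomogeneous (e - c))) := by
    intro H r c hH
    by_cases hce : c ≤ e
    · refine ⟨homogeneousComponent (e - c) r, ?_,
        Or.inr ⟨hce, homogeneousComponent_isHomogeneous _ _⟩⟩
      conv_lhs => rw [show e = c + (e - c) by omega]
      rw [comp_mul hH, mul_comm]
    · exact ⟨0, by rw [comp_mul_of_lt hH (by omega), zero_mul], Or.inl rfl⟩
  obtain ⟨α, h1, h2⟩ := key F p a hF
  obtain ⟨β, h3, h4⟩ := key G q b hG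
  exact ⟨α, β, by rw [hc, h1, h3], h2, h4⟩

/-- Exactness of the Koszul complex in the middle. -/
theorem koszul {x : Fin 3 → MvPolynomial (Fin 3) k}
    (h : X 0 * x 0 + X 1 * x 1 + X 2 * x 2 = 0) :
    ∃ u : Fin 3 → MvPolynomial (Fin 3) k, x 0 = X 1 * u 2 - X 2 * u 1 ∧
      x 1 = X 2 * u 0 - X 0 * u 2 ∧ x 2 = X 0 * u 1 - X 1 * u 0 := by
  have h0 : x 0 ∈ Ideal.span (X '' ({1, 2} : Set (Fin 3)) : Set (MvPolynomial (Fin 3) k)) := by
    have h1 : X 0 * x 0 ∈
        Ideal.span (X '' ({1, 2} : Set (Fin 3)) : Set (MvPolynomial (Fin 3) k)) := by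
      have : X 0 * x 0 = (-x 1) * X 1 + (-x 2) * X 2 := by linear_combination h
      rw [this]
      exact Ideal.add_mem _ (Ideal.mul_mem_left _ _ (Ideal.subset_span ⟨1, by simp, rfl⟩))
        (Ideal.mul_mem_left _ _ (Ideal.subset_span ⟨2, by simp, rfl⟩))
    rw [mem_ideal_span_X_image] at h1 ⊢
    intro m hm
    have hm' : m + Finsupp.single 0 1 ∈ (X 0 * x 0).support := by
      rw [mem_support_iff] at hm ⊢
      rw [mul_comm, coeff_mul_X]
      exact hm
    obtain ⟨i, hi, hne⟩ := h1 _ hm'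
    refine ⟨i, hi, ?_⟩
    have hi0 : (0 : Fin 3) ≠ i := by
      rintro rfl
      simp at hi
    rw [Finsupp.add_apply, Finsupp.single_eq_of_ne hi0.symm] at hne
    simpa using hne
  rw [Set.image_pair, Ideal.mem_span_pair] at h0
  obtain ⟨p, q, hpq⟩ := h0
  have h2 : X 1 * (x 1 + X 0 * p) + X 2 * (x 2 + X 0 * q) = 0 := by
    linear_combination h + X 0 * hpq
  have h3 : (X 2 : MvPolynomial (Fin 3) k) ∣ x 1 + X 0 * p := by
    have h4 : (X 2 : MvPolynomial (Fin 3) k) ∣ X 1 * (x 1 + X 0 * p) :=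
      ⟨-(x 2 + X 0 * q), by linear_combination h2⟩
    rcases (X_prime (i := (2 : Fin 3)) (R := k)).dvd_or_dvd h4 with h5 | h5
    · rw [X_dvd_X] at h5
      exact absurd h5 (by decide)
    · exact h5
  obtain ⟨r, hr⟩ := h3
  have h6 : x 2 + X 0 * q = -(X 1 * r) := by
    have h7 : (X 2 : MvPolynomial (Fin 3) k) * (x 2 + X 0 * q + X 1 * r) = 0 := by
      linear_combination h2 - X 1 * hr
    have h8 := (mul_eq_zero.1 h7).resolve_left (X_ne_zero _)
    linear_combination h8
  refine ⟨![r, -q, p], ?_, ?_, ?_⟩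
  · simp only [Matrix.cons_val]
    linear_combination -hpq
  · simp only [Matrix.cons_val]
    linear_combination hr
  · simp only [Matrix.cons_val]
    linear_combination h6

theorem totalDegree_X_mul_le {α : MvPolynomial (Fin 3) k} {e c : ℕ} (i : Fin 3)
    (h : α = 0 ∨ (c ≤ e ∧ α.IsHomogeneous (e - c))) : (X i * α).totalDegree ≤ e - c + 1 := by
  rcases h with rfl | ⟨_, h⟩
  · simp
  · have := (isHomogeneous_X k i).mul h
    refine this.totalDegree_le.trans (by omega)

/-- **No socle.** -/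
theorem nosocle {F G : MvPolynomial (Fin 3) k} {a b t : ℕ} (hF : F.IsHomogeneous a)
    (hG : G.IsHomogeneous b) (hG0 : G ≠ 0) (hrel : IsRelPrime F G) (ht : t + 4 ≤ a + b)
    (A : Fin 3 → MvPolynomial (Fin 3) k) (hA : ∀ i, (A i).IsHomogeneous (t + 1))
    (hI : ∀ i j, X j * A i - X i * A j ∈ Ideal.span {F, G}) :
    ∃ D : MvPolynomial (Fin 3) k, D.IsHomogeneous t ∧
      ∀ i, A i - X i * D ∈ Ideal.span {F, G} := by
  have hhom : ∀ i j, (X j * A i - X i * A j).IsHomogeneous (t + 2) := by
    intro i j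
    have h1 := (isHomogeneous_X k j).mul (hA i)
    have h2 := (isHomogeneous_X k i).mul (hA j)
    rw [show 1 + (t + 1) = t + 2 by ring] at h1 h2
    exact h1.sub h2
  obtain ⟨α2, β2, e2, hα2, hβ2⟩ := decomp hF hG (hhom 0 1) (hI 0 1)
  obtain ⟨α0, β0, e0, hα0, hβ0⟩ := decomp hF hG (hhom 1 2) (hI 1 2)
  obtain ⟨α1, β1, e1, hα1, hβ1⟩ := decomp hF hG (hhom 2 0) (hI 2 0)
  set Λ := X 0 * α0 + X 1 * α1 + X 2 * α2 with hΛ
  set M := X 0 * β0 + X 1 * β1 + X 2 * β2 with hM
  have hrelation : Λ * F + M * G = 0 := by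
    rw [hΛ, hM]
    linear_combination (-X 2) * e2 - X 0 * e0 - X 1 * e1
  have hdvd : G ∣ Λ := by
    have h1 : G ∣ F * Λ := ⟨-M, by linear_combination hrelation⟩
    exact hrel.symm.dvd_of_dvd_mul_left h1
  have hΛ0 : Λ = 0 := by
    by_contra hne
    obtain ⟨γ, hγ⟩ := hdvd
    have hγ0 : γ ≠ 0 := by
      rintro rfl
      exact hne (by rw [hγ, mul_zero])
    have h1 : Λ.totalDegree = G.totalDegree + γ.totalDegree := by
      rw [hγ, totalDegree_mul_of_isDomain hG0 hγ0]
    have h2 : G.totalDegree = b := hG.totalDegree hG0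
    have h3 : Λ.totalDegree ≤ t + 2 - a + 1 := by
      rw [hΛ]
      refine (totalDegree_add _ _).trans (max_le ((totalDegree_add _ _).trans (max_le ?_ ?_)) ?_)
      · exact totalDegree_X_mul_le 0 hα0
      · exact totalDegree_X_mul_le 1 hα1
      · exact totalDegree_X_mul_le 2 hα2
    have h4 : a ≤ t + 2 := by
      by_contra h5
      push Not at h5
      have g0 : α0 = 0 := hα0.resolve_right (fun h => by omega)
      have g1 : α1 = 0 := hα1.resolve_right (fun h => by omega)
      have g2 : α2 = 0 := hα2.resolve_right (fun h => by omega)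
      apply hne
      rw [hΛ, g0, g1, g2]
      ring
    omega
  have hM0 : M = 0 := by
    rw [hΛ0, zero_mul, zero_add] at hrelation
    exact (mul_eq_zero.1 hrelation).resolve_right hG0
  obtain ⟨u, u0, u1, u2⟩ := koszul (x := ![α0, α1, α2]) (by simpa [hΛ] using hΛ0)
  obtain ⟨v, v0, v1, v2⟩ := koszul (x := ![β0, β1, β2]) (by simpa [hM] using hM0)
  simp only [Matrix.cons_val] at u0 u1 u2 v0 v1 v2
  -- the modified elements
  have k01 : X 1 * (A 0 + u 0 * F + v 0 * G) = X 0 * (A 1 + u 1 * F + v 1 * G) := by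
    rw [u2, v2] at e2
    linear_combination e2
  have k20 : X 0 * (A 2 + u 2 * F + v 2 * G) = X 2 * (A 0 + u 0 * F + v 0 * G) := by
    rw [u1, v1] at e1
    linear_combination e1
  have hX : (X 0 : MvPolynomial (Fin 3) k) ∣ A 0 + u 0 * F + v 0 * G := by
    have h4 : (X 0 : MvPolynomial (Fin 3) k) ∣ X 1 * (A 0 + u 0 * F + v 0 * G) := ⟨_, k01⟩
    rcases (X_prime (i := (0 : Fin 3)) (R := k)).dvd_or_dvd h4 with h5 | h5
    · rw [X_dvd_X] at h5
      exact absurd h5 (by decide)
    · exact h5
  obtain ⟨D, hD⟩ := hX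
  have hX0 : (X 0 : MvPolynomial (Fin 3) k) ≠ 0 := X_ne_zero _
  have hD1 : A 1 + u 1 * F + v 1 * G = X 1 * D := by
    apply mul_left_cancel₀ hX0
    rw [← k01, hD]
    ring
  have hD2 : A 2 + u 2 * F + v 2 * G = X 2 * D := by
    apply mul_left_cancel₀ hX0
    rw [k20, hD]
    ring
  have hDall : ∀ i, A i + u i * F + v i * G = X i * D := by
    intro i
    fin_cases i
    · exact hD
    · exact hD1
    · exact hD2
  refine ⟨homogeneousComponent t D, homogeneousComponent_isHomogeneous _ _, fun i => ?_⟩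
  have h1 : X i * homogeneousComponent t D = homogeneousComponent (1 + t) (X i * D) :=
    (comp_mul (isHomogeneous_X k i)).symm
  rw [h1, ← hDall i, map_add, map_add]
  have h2 : homogeneousComponent (1 + t) (A i) = A i := by
    rw [add_comm 1 t, homogeneousComponent_of_mem (hA i), if_pos rfl]
  have h3 : ∀ (H r : MvPolynomial (Fin 3) k) (c : ℕ), H.IsHomogeneous c → H ∈ ({F, G} : Set _) →
      homogeneousComponent (1 + t) (r * H) ∈ Ideal.span {F, G} := by
    intro H r c hH hmem
    rw [mul_comm]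
    by_cases hc : c ≤ 1 + t
    · conv => rw [show 1 + t = c + (1 + t - c) by omega]
      rw [comp_mul hH]
      exact Ideal.mul_mem_right _ _ (Ideal.subset_span hmem)
    · rw [comp_mul_of_lt hH (by omega)]
      exact Ideal.zero_mem _
  rw [h2]
  have h4 := h3 F (u i) a hF (by simp)
  have h5 := h3 G (v i) b hG (by simp)
  have h6 : A i - (A i + homogeneousComponent (1 + t) (u i * F) +
      homogeneousComponent (1 + t) (v i * G)) =
      -(homogeneousComponent (1 + t) (u i * F) + homogeneousComponent (1 + t) (v i * G)) := by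
    ring
  rw [h6]
  exact (Ideal.neg_mem_iff _).2 (Ideal.add_mem _ h4 h5)

end Pool.Agent.R862.GU
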