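import Mathlib

/-!
Geproci sets and unexpected cones: definitions for MP_69376a_ag.
-/

set_option autoImplicit false

namespace Pool.Agent.R862.GU

open MvPolynomial
open scoped LinearAlgebra.Projectivization

universe u

variable {K : Type u} [Field K]

/-- The affine cone over `Z ⊆ ℙ^3`: the union of the lines in `K^4` representing the points
of `Z`. -/
def coneOver (Z : Set (ℙ K (Fin 4 → K))) : Set (Fin 4 → K) := {x | ∃ z ∈ Z, x ∈ z.submodule}

/-- The homogeneous ideal `I(Z)` of `Z ⊆ ℙ^3`: the polynomials vanishing on the affine cone. -/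
def idealOf (Z : Set (ℙ K (Fin 4 → K))) : Ideal (MvPolynomial (Fin 4) K) :=
  vanishingIdeal K (coneOver Z)

/-- The homogeneous ideal `I(P)` of the point with representative `P`: the polynomials vanishing
at all multiples of `P`. -/
def pointIdeal (P : Fin 4 → K) : Ideal (MvPolynomial (Fin 4) K) :=
  vanishingIdeal K {x | ∃ t : K, x = t • P}

/-- The homogeneous ideal of the image `π(Z) ⊆ ℙ^2` of `Z` under the projection given by the
linear map `π`. -/
def imageIdeal (Z : Set (ℙ K (Fin 4 → K))) (π : (Fin 4 → K) →ₗ[K] (Fin 3 → K)) :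
    Ideal (MvPolynomial (Fin 3) K) :=
  vanishingIdeal K (π '' coneOver Z)

/-- The ideal is generated by a form of degree `a` and a form of degree `b` without a common
factor: it is the ideal of a complete intersection of a curve of degree `a` and a curve of degree
`b`. -/
def IsCompleteIntersection (a b : ℕ) (I : Ideal (MvPolynomial (Fin 3) K)) : Prop :=
  ∃ F G : MvPolynomial (Fin 3) K, F.IsHomogeneous a ∧ G.IsHomogeneous b ∧ IsRelPrime F G ∧
    I = Ideal.span {F, G}

/-- `Z` is `(a, b)`-geproci: for a general point `P` (outside the zero set of some nonzero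
polynomial `g`) the image of `Z` under the projection from `P` to a plane, given by a linear map
`π : K^4 → K^3` with kernel the line `P`, is a complete intersection of plane curves of degrees
`a` and `b`. -/
def IsGeproci (a b : ℕ) (Z : Set (ℙ K (Fin 4 → K))) : Prop :=
  1 ≤ a ∧ a ≤ b ∧ Z.Finite ∧ ∃ g : MvPolynomial (Fin 4) K, g ≠ 0 ∧
    ∀ P : Fin 4 → K, eval P g ≠ 0 → ∀ π : (Fin 4 → K) →ₗ[K] (Fin 3 → K),
      LinearMap.ker π = Submodule.span K {P} → IsCompleteIntersection a b (imageIdeal Z π)

/-- `Z` is contained in a plane. -/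
def IsDegenerate (Z : Set (ℙ K (Fin 4 → K))) : Prop :=
  ∃ φ : (Fin 4 → K) →ₗ[K] K, φ ≠ 0 ∧ ∀ x ∈ coneOver Z, φ x = 0

/-- The dimension of the space `[J]_t` of the forms of degree `t` in the ideal `J`. -/
noncomputable def dimDeg (J : Ideal (MvPolynomial (Fin 4) K)) (t : ℕ) : ℕ :=
  Module.finrank K ↥(J.restrictScalars K ⊓ homogeneousSubmodule (Fin 4) K t)

/-- Condition `C(d)`: for a general point `P`,
`dim [I(Z) ∩ I(P)^d]_d > max (0, dim [I(Z)]_d - binom (d + 2) 3)`. -/
def HasUnexpectedCone (d : ℕ) (Z : Set (ℙ K (Fin 4 → K))) : Prop :=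
  ∃ g : MvPolynomial (Fin 4) K, g ≠ 0 ∧ ∀ P : Fin 4 → K, eval P g ≠ 0 →
    max 0 ((dimDeg (idealOf Z) d : ℤ) - (d + 2).choose 3) <
      (dimDeg (idealOf Z ⊓ pointIdeal P ^ d) d : ℤ)

end Pool.Agent.R862.GU
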