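import Pool.Agent.R862.GU.Alg
import Pool.Agent.R862.GU.Defs

/-!
Nondegenerate `(a, b)`-geproci sets have unexpected cones of all degrees `a ≤ d ≤ a + b - 3`.
-/

set_option autoImplicit false

namespace Pool.Agent.R862.GU

open MvPolynomial
open scoped LinearAlgebra.Projectivization

universe u

variable {K : Type u} [Field K]

theorem finrank_hom (n s : ℕ) :
    Module.finrank K (homogeneousSubmodule (Fin (n + 1)) K s) = (n + s).choose n := by
  classical
  rw [homogeneousSubmodule_eq_finsupp_supported]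
  rw [LinearEquiv.finrank_eq (AddMonoidAlgebra.supportedEquivFinsupp (S := K) (R := K)
    {d : Fin (n + 1) →₀ ℕ | d.degree = s})]
  have hset : {d : Fin (n + 1) →₀ ℕ | d.degree = s} =
      ((Finset.univ : Finset (Fin (n + 1))).finsuppAntidiag s : Set (Fin (n + 1) →₀ ℕ)) := by
    ext d
    simp [Finset.mem_finsuppAntidiag, Finsupp.degree_eq_sum]
  have hfin : Finite {d : Fin (n + 1) →₀ ℕ | d.degree = s} := by
    rw [hset]; exact Finset.finite_toSet _
  have := Fintype.ofFinite {d : Fin (n + 1) →₀ ℕ | d.degree = s}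
  rw [Module.finrank_finsupp_self, ← Nat.card_eq_fintype_card, Nat.card_coe_set_eq, hset,
    Set.ncard_coe_finset, Finset.card_finsuppAntidiag_nat_eq_choose]
  simp only [Finset.card_univ, Fintype.card_fin]
  rw [show n + 1 + s - 1 = n + s by omega]
  exact (Nat.choose_symm_of_eq_add rfl).symm ▸ rfl

instance instFin (n s : ℕ) : FiniteDimensional K (homogeneousSubmodule (Fin n) K s) :=
  Module.Finite.iff_fg.mpr (homogeneousSubmodule_fg (Fin n) K s)

theorem finrank_map_add {V W : Type u} [AddCommGroup V] [Module K V] [AddCommGroup W] [Module K W]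
    (U : Submodule K V) [FiniteDimensional K U] (φ : V →ₗ[K] W) :
    Module.finrank K (U.map φ) + Module.finrank K ↥(LinearMap.ker φ ⊓ U) =
      Module.finrank K U := by
  have h := LinearMap.finrank_range_add_finrank_ker (φ.domRestrict U)
  have h1 : LinearMap.range (φ.domRestrict U) = U.map φ := by
    rw [LinearMap.range_domRestrict]
  have h2 : Module.finrank K (LinearMap.ker (φ.domRestrict U)) =
      Module.finrank K ↥(LinearMap.ker φ ⊓ U) := by
    have h3 : (LinearMap.ker (φ.domRestrict U)).map U.subtype = LinearMap.ker φ ⊓ U := by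
      ext x
      constructor
      · rintro ⟨y, hy, rfl⟩
        exact ⟨hy, y.2⟩
      · rintro ⟨hx, hU⟩
        exact ⟨⟨x, hU⟩, hx, rfl⟩
    rw [← h3]
    exact LinearEquiv.finrank_eq
      (Submodule.equivMapOfInjective U.subtype U.injective_subtype (LinearMap.ker (φ.domRestrict U)))
  rw [h1, h2] at h
  exact h

theorem eval_smul_hom {n e : ℕ} {G : MvPolynomial (Fin n) K} (hG : G.IsHomogeneous e) (t : K)
    (x : Fin n → K) : eval (t • x) G = t ^ e * eval x G := by
  rw [eval_eq', eval_eq', Finset.mul_sum]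
  refine Finset.sum_congr rfl fun α hα => ?_
  have hdeg : α.degree = e := by
    by_contra h
    exact (mem_support_iff.1 hα) (hG.coeff_eq_zero h)
  rw [Finsupp.degree_eq_sum] at hdeg
  simp only [Pi.smul_apply, smul_eq_mul, mul_pow]
  rw [Finset.prod_mul_distrib, Finset.prod_pow_eq_pow_sum, hdeg]
  ring

/-- the projection from `P` in coordinates -/
noncomputable def prj (P : Fin 4 → K) : (Fin 4 → K) →ₗ[K] (Fin 3 → K) where
  toFun x i := P 3 * x i.castSucc - x 3 * P i.castSucc
  map_add' x y := by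
    funext i
    simp only [Pi.add_apply]
    ring
  map_smul' c x := by
    funext i
    simp only [Pi.smul_apply, smul_eq_mul, RingHom.id_apply]
    ring

theorem prj_apply (P x : Fin 4 → K) (i : Fin 3) :
    prj P x i = P 3 * x i.castSucc - x 3 * P i.castSucc := rfl

theorem ker_prj {P : Fin 4 → K} (hP : P 3 ≠ 0) : LinearMap.ker (prj P) = Submodule.span K {P} := by
  ext x
  rw [LinearMap.mem_ker, Submodule.mem_span_singleton]
  constructor
  · intro h
    refine ⟨x 3 / P 3, ?_⟩
    funext j
    refine Fin.lastCases ?_ (fun i => ?_) j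
    · change x 3 / P 3 * P 3 = x 3
      field_simp
    · have := congrFun h i
      rw [prj_apply, Pi.zero_apply] at this
      change x 3 / P 3 * P i.castSucc = x i.castSucc
      field_simp
      linear_combination -this
  · rintro ⟨c, rfl⟩
    funext i
    rw [prj_apply]
    simp only [Pi.smul_apply, smul_eq_mul, Pi.zero_apply]
    ring

/-- the pull-back of polynomials under the projection -/
noncomputable def pull (P : Fin 4 → K) : MvPolynomial (Fin 3) K →ₐ[K] MvPolynomial (Fin 4) K :=
  aeval fun i => C (P 3) * X i.castSucc - C (P i.castSucc) * X 3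

theorem eval_pull (P x : Fin 4 → K) (f : MvPolynomial (Fin 3) K) :
    eval x (pull P f) = eval (prj P x) f := by
  unfold pull
  rw [aeval_def, eval₂_eq', map_sum, eval_eq']
  refine Finset.sum_congr rfl fun m _ => ?_
  rw [map_mul, map_prod]
  congr 1
  · simp [algebraMap_eq]
  · refine Finset.prod_congr rfl fun i _ => ?_
    rw [map_pow, prj_apply]
    simp only [map_sub, map_mul, eval_C, eval_X]
    ring

theorem pull_lin_hom (P : Fin 4 → K) (i : Fin 3) :
    (C (P 3) * X i.castSucc - C (P i.castSucc) * X 3 : MvPolynomial (Fin 4) K).IsHomogeneous 1 := by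
  have h1 := (isHomogeneous_C (Fin 4) (P 3)).mul (isHomogeneous_X K i.castSucc)
  have h2 := (isHomogeneous_C (Fin 4) (P i.castSucc)).mul (isHomogeneous_X K (3 : Fin 4))
  rw [zero_add] at h1 h2
  exact h1.sub h2

theorem pull_hom (P : Fin 4 → K) {f : MvPolynomial (Fin 3) K} {d : ℕ} (hf : f.IsHomogeneous d) :
    (pull P f).IsHomogeneous d := by
  have := hf.aeval (fun i => C (P 3) * X i.castSucc - C (P i.castSucc) * X 3) (n := 1)
    (pull_lin_hom P)
  rw [one_mul] at this
  exact this

theorem pull_mem_pow (P : Fin 4 → K) {f : MvPolynomial (Fin 3) K} {d : ℕ}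
    (hf : f.IsHomogeneous d) : pull P f ∈ pointIdeal P ^ d := by
  unfold pull
  rw [aeval_def, eval₂_eq']
  refine Ideal.sum_mem _ fun m hm => Ideal.mul_mem_left _ _ ?_
  have hdeg : m.degree = d := by
    by_contra h
    exact (mem_support_iff.1 hm) (hf.coeff_eq_zero h)
  rw [Finsupp.degree_eq_sum] at hdeg
  rw [← hdeg, ← Finset.prod_pow_eq_pow_sum]
  refine Ideal.prod_mem_prod fun i _ => Ideal.pow_mem_pow ?_ _
  unfold pointIdeal
  rw [mem_vanishingIdeal_iff]
  rintro x ⟨t, rfl⟩
  simp only [map_sub, map_mul, aeval_C, aeval_X, Pi.smul_apply, smul_eq_mul, Algebra.algebraMap_self,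
    RingHom.id_apply]
  ring

theorem prj_surj {P : Fin 4 → K} (hP : P 3 ≠ 0) : Function.Surjective (prj P) := by
  intro y
  refine ⟨fun j => Fin.lastCases 0 (fun i => y i / P 3) j, ?_⟩
  funext i
  rw [prj_apply]
  have h3 : (3 : Fin 4) = Fin.last 3 := rfl
  rw [h3, Fin.lastCases_castSucc, Fin.lastCases_last, ← h3]
  field_simp
  ring

theorem pull_injective [Infinite K] {P : Fin 4 → K} (hP : P 3 ≠ 0) :
    Function.Injective (pull P) := by
  rw [injective_iff_map_eq_zero]
  intro f hf
  apply MvPolynomial.funext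
  intro y
  obtain ⟨x, rfl⟩ := prj_surj hP y
  rw [← eval_pull, hf, map_zero, map_zero]

/-! ### Evaluation at the points -/

variable {Z : Set (ℙ K (Fin 4 → K))}

theorem mem_cone_iff {x : Fin 4 → K} : x ∈ coneOver Z ↔ ∃ z ∈ Z, ∃ t : K, x = t • z.rep := by
  unfold coneOver
  constructor
  · rintro ⟨z, hz, hx⟩
    rw [Projectivization.submodule_eq, Submodule.mem_span_singleton] at hx
    obtain ⟨t, rfl⟩ := hx
    exact ⟨z, hz, t, rfl⟩
  · rintro ⟨z, hz, t, rfl⟩
    refine ⟨z, hz, ?_⟩
    rw [Projectivization.submodule_eq]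
    exact Submodule.mem_span_singleton.2 ⟨t, rfl⟩

theorem mem_idealOf_of_hom {f : MvPolynomial (Fin 4) K} {d : ℕ} (hf : f.IsHomogeneous d) :
    f ∈ idealOf Z ↔ ∀ z ∈ Z, eval z.rep f = 0 := by
  unfold idealOf
  rw [mem_vanishingIdeal_iff]
  constructor
  · intro h z hz
    have := h z.rep (mem_cone_iff.2 ⟨z, hz, 1, (one_smul _ _).symm⟩)
    rwa [aeval_eq_eval] at this
  · intro h x hx
    obtain ⟨z, hz, t, rfl⟩ := mem_cone_iff.1 hx
    rw [aeval_eq_eval]
    change eval (t • z.rep) f = 0
    rw [eval_smul_hom hf, h z hz, mul_zero]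

theorem mem_imageIdeal_of_hom {P : Fin 4 → K} {f : MvPolynomial (Fin 3) K} {d : ℕ}
    (hf : f.IsHomogeneous d) :
    f ∈ imageIdeal Z (prj P) ↔ ∀ z ∈ Z, eval (prj P z.rep) f = 0 := by
  unfold imageIdeal
  rw [mem_vanishingIdeal_iff]
  constructor
  · intro h z hz
    have := h (prj P z.rep) ⟨z.rep, mem_cone_iff.2 ⟨z, hz, 1, (one_smul _ _).symm⟩, rfl⟩
    rwa [aeval_eq_eval] at this
  · rintro h _ ⟨x, hx, rfl⟩
    obtain ⟨z, hz, t, rfl⟩ := mem_cone_iff.1 hx
    rw [aeval_eq_eval]
    change eval (prj P (t • z.rep)) f = 0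
    rw [map_smul, eval_smul_hom hf, h z hz, mul_zero]

/-- evaluation of polynomials in three variables at the images of the points -/
noncomputable def ev3 (Z : Set (ℙ K (Fin 4 → K))) (P : Fin 4 → K) :
    MvPolynomial (Fin 3) K →ₗ[K] (Z → K) :=
  LinearMap.pi fun z => (aeval (prj P z.1.rep)).toLinearMap

/-- evaluation of polynomials in four variables at the points -/
noncomputable def ev4 (Z : Set (ℙ K (Fin 4 → K))) : MvPolynomial (Fin 4) K →ₗ[K] (Z → K) :=
  LinearMap.pi fun z => (aeval z.1.rep).toLinearMap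

theorem ev3_apply (P : Fin 4 → K) (f : MvPolynomial (Fin 3) K) (z : Z) :
    ev3 Z P f z = eval (prj P z.1.rep) f := by
  change aeval (prj P z.1.rep) f = _
  rw [aeval_eq_eval]

theorem ev4_apply (f : MvPolynomial (Fin 4) K) (z : Z) : ev4 Z f z = eval z.1.rep f := by
  change aeval z.1.rep f = _
  rw [aeval_eq_eval]

theorem ev_pull (P : Fin 4 → K) (f : MvPolynomial (Fin 3) K) : ev4 Z (pull P f) = ev3 Z P f := by
  funext z
  rw [ev4_apply, ev3_apply, eval_pull]

/-- Forms of degree one are linear. -/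
theorem exists_linear {n : ℕ} {q : MvPolynomial (Fin n) K} (hq : q.IsHomogeneous 1) :
    ∃ φ : (Fin n → K) →ₗ[K] K, ∀ x, φ x = eval x q := by
  have hq' : q ∈ Submodule.span K (Set.range (X : Fin n → MvPolynomial (Fin n) K)) := by
    rw [← homogeneousSubmodule_one_eq_span_X]
    exact hq
  induction hq' using Submodule.span_induction with
  | mem l h =>
    obtain ⟨i, rfl⟩ := h
    exact ⟨LinearMap.proj i, fun x => by simp⟩
  | zero => exact ⟨0, fun x => by simp⟩
  | add a b ha' hb' ha hb =>
    have h1 : a.IsHomogeneous 1 := by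
      rw [← homogeneousSubmodule_one_eq_span_X] at ha'
      exact ha'
    have h2 : b.IsHomogeneous 1 := by
      rw [← homogeneousSubmodule_one_eq_span_X] at hb'
      exact hb'
    obtain ⟨φ, hφ⟩ := ha h1
    obtain ⟨ψ, hψ⟩ := hb h2
    exact ⟨φ + ψ, fun x => by rw [LinearMap.add_apply, hφ, hψ, map_add]⟩
  | smul c a ha' ha =>
    have h1 : a.IsHomogeneous 1 := by
      rw [← homogeneousSubmodule_one_eq_span_X] at ha'
      exact ha'
    obtain ⟨φ, hφ⟩ := ha h1
    exact ⟨c • φ, fun x => by rw [LinearMap.smul_apply, hφ, smul_eval, smul_eq_mul]⟩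

/-- **The main point**: the forms of degree `d` in four variables restrict to more functions on
`Z` than those in three variables. -/
theorem map_lt {a b d : ℕ} {P : Fin 4 → K} (hP : P 3 ≠ 0) (hPZ : ∀ z ∈ Z, prj P z.rep ≠ 0)
    (hZ : ¬ IsDegenerate Z) {F G : MvPolynomial (Fin 3) K} (hF : F.IsHomogeneous a)
    (hG : G.IsHomogeneous b) (hG0 : G ≠ 0) (hrel : IsRelPrime F G)
    (hI : imageIdeal Z (prj P) = Ideal.span {F, G}) (hd1 : 1 ≤ d) (hd : d + 3 ≤ a + b) :
    (homogeneousSubmodule (Fin 3) K d).map (ev3 Z P) <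
      (homogeneousSubmodule (Fin 4) K d).map (ev4 Z) := by
  have hle : (homogeneousSubmodule (Fin 3) K d).map (ev3 Z P) ≤
      (homogeneousSubmodule (Fin 4) K d).map (ev4 Z) := by
    rintro _ ⟨f, hf, rfl⟩
    exact ⟨pull P f, pull_hom P hf, ev_pull P f⟩
  refine lt_of_le_of_ne hle fun heq => hZ ?_
  have key : ∀ i, i + 1 ≤ d → ∀ m : MvPolynomial (Fin 3) K, m.IsHomogeneous (d - 1 - i) →
      ∃ D : MvPolynomial (Fin 3) K, D.IsHomogeneous (d - i) ∧
        ∀ z ∈ Z, eval (prj P z.rep) D = z.rep 3 * eval (prj P z.rep) m := by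
    intro i
    induction i with
    | zero =>
      intro _ m hm
      have h1 : ev4 Z (X 3 * pull P m) ∈ (homogeneousSubmodule (Fin 3) K d).map (ev3 Z P) := by
        rw [heq]
        refine ⟨_, ?_, rfl⟩
        have := (isHomogeneous_X K (3 : Fin 4)).mul (pull_hom P hm)
        rw [show 1 + (d - 1 - 0) = d by omega] at this
        exact this
      obtain ⟨D, hD, hD2⟩ := h1
      refine ⟨D, hD, fun z hz => ?_⟩
      have h2 := congrFun hD2 ⟨z, hz⟩
      rw [ev3_apply, ev4_apply, map_mul, eval_X, eval_pull] at h2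
      exact h2
    | succ i ih =>
      intro hi m hm
      have ih' := ih (by omega)
      have hA : ∀ l : Fin 3, ∃ A : MvPolynomial (Fin 3) K, A.IsHomogeneous (d - i) ∧
          ∀ z ∈ Z, eval (prj P z.rep) A = z.rep 3 * eval (prj P z.rep) (X l * m) := by
        intro l
        apply ih'
        have := (isHomogeneous_X K l).mul hm
        rw [show 1 + (d - 1 - (i + 1)) = d - 1 - i by omega] at this
        exact this
      choose A hA1 hA2 using hA
      have hA1' : ∀ l, (A l).IsHomogeneous (d - (i + 1) + 1) := by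
        intro l
        rw [show d - (i + 1) + 1 = d - i by omega]
        exact hA1 l
      have hspan : ∀ l j, X j * A l - X l * A j ∈ Ideal.span {F, G} := by
        intro l j
        rw [← hI]
        have h1 := (isHomogeneous_X K j).mul (hA1' l)
        have h2 := (isHomogeneous_X K l).mul (hA1' j)
        rw [mem_imageIdeal_of_hom (h1.sub h2)]
        intro z hz
        rw [map_sub, map_mul, map_mul, hA2 l z hz, hA2 j z hz]
        simp only [map_mul, eval_X]
        ring
      obtain ⟨D, hD1, hD2⟩ := nosocle hF hG hG0 hrel (t := d - (i + 1)) (by omega) A hA1' hspan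
      refine ⟨D, hD1, fun z hz => ?_⟩
      obtain ⟨l, hl⟩ := Function.ne_iff.1 (hPZ z hz)
      have h1 := hD2 l
      rw [← hI] at h1
      have h2 : (A l - X l * D).IsHomogeneous (d - (i + 1) + 1) := by
        have := (isHomogeneous_X K l).mul hD1
        rw [add_comm 1] at this
        exact (hA1' l).sub this
      rw [mem_imageIdeal_of_hom h2] at h1
      have h3 := h1 z hz
      rw [map_sub, map_mul, hA2 l z hz, map_mul, eval_X] at h3
      have h4 : prj P z.rep l * (z.rep 3 * eval (prj P z.rep) m - eval (prj P z.rep) D) = 0 := by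
        linear_combination h3
      have h5 := (mul_eq_zero.1 h4).resolve_left hl
      linear_combination -h5
  obtain ⟨D, hD, hD2⟩ := key (d - 1) (by omega) 1 (by
    rw [Nat.sub_self]
    exact isHomogeneous_one _ _)
  have hD1 : D.IsHomogeneous 1 := by
    rw [show d - (d - 1) = 1 by omega] at hD
    exact hD
  obtain ⟨φ, hφ⟩ := exists_linear (q := X 3 - pull P D)
    ((isHomogeneous_X K (3 : Fin 4)).sub (pull_hom P hD1))
  refine ⟨φ, ?_, ?_⟩
  · intro h0
    have h1 := hφ P
    rw [h0, LinearMap.zero_apply, map_sub, eval_X, eval_pull] at h1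
    have h2 : prj P P = 0 := by
      rw [← LinearMap.mem_ker, ker_prj hP]
      exact Submodule.mem_span_singleton_self P
    rw [h2] at h1
    have h3 : eval (0 : Fin 3 → K) D = 0 := by
      have := eval_smul_hom hD1 (0 : K) 0
      simpa using this
    rw [h3, sub_zero] at h1
    exact hP h1.symm
  · intro x hx
    obtain ⟨z, hz, t, rfl⟩ := mem_cone_iff.1 hx
    rw [map_smul, hφ, map_sub, eval_X, eval_pull, hD2 z hz, map_one, mul_one, sub_self, smul_zero]

/-- a nonzero linear form vanishing at a given nonzero vector -/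
theorem exists_form {v : Fin 4 → K} (hv : v ≠ 0) :
    ∃ l : MvPolynomial (Fin 4) K, l ≠ 0 ∧ ∀ c : K, eval (c • v) l = 0 := by
  obtain ⟨i, hi⟩ := Function.ne_iff.1 hv
  have hi' : v i ≠ 0 := hi
  obtain ⟨j, hj⟩ : ∃ j : Fin 4, j ≠ i := exists_ne i
  refine ⟨C (v i) * X j - C (v j) * X i, ?_, ?_⟩
  · intro h
    have h1 := congrArg (eval (Pi.single j (1 : K))) h
    simp only [map_sub, map_mul, eval_C, eval_X, Pi.single_eq_same, mul_one, map_zero] at h1
    rw [Pi.single_eq_of_ne hj.symm, mul_zero, sub_zero] at h1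
    exact hi' h1
  · intro c
    simp only [map_sub, map_mul, eval_C, eval_X, Pi.smul_apply, smul_eq_mul]
    ring

theorem not_isUnit_of_hom {n e : ℕ} {G : MvPolynomial (Fin n) K} (hG : G.IsHomogeneous e)
    (he : 1 ≤ e) : ¬ IsUnit G := by
  intro h
  have h1 : IsUnit (eval (0 : Fin n → K) G) := h.map _
  have h2 : eval (0 : Fin n → K) G = 0 := by
    have := eval_smul_hom hG (0 : K) 0
    rw [zero_pow (by omega), zero_mul, smul_zero] at this
    exact this
  rw [h2] at h1
  exact not_isUnit_zero h1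

/-- Nondegenerate `(a, b)`-geproci sets satisfy `C(d)` for all `a ≤ d ≤ a + b - 3`. -/
theorem unexpected [Infinite K] {a b d : ℕ} (hZ : IsGeproci a b Z) (hnd : ¬ IsDegenerate Z)
    (had : a ≤ d) (hd : d + 3 ≤ a + b) : HasUnexpectedCone d Z := by
  classical
  obtain ⟨ha, hab, hfin, g, hg0, hg⟩ := hZ
  choose l hl0 hl using fun z : ℙ K (Fin 4 → K) => exists_form z.rep_nonzero
  refine ⟨g * X 3 * ∏ z ∈ hfin.toFinset, l z, mul_ne_zero (mul_ne_zero hg0 (X_ne_zero _))
    (Finset.prod_ne_zero_iff.2 fun z _ => hl0 z), fun P hP => ?_⟩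
  rw [map_mul, map_mul, eval_X, map_prod] at hP
  have hP1 : eval P g ≠ 0 := left_ne_zero_of_mul (left_ne_zero_of_mul hP)
  have hP3 : P 3 ≠ 0 := right_ne_zero_of_mul (left_ne_zero_of_mul hP)
  have hPZ : ∀ z ∈ Z, prj P z.rep ≠ 0 := by
    intro z hz h
    rw [← LinearMap.mem_ker, ker_prj hP3, Submodule.mem_span_singleton] at h
    obtain ⟨c, hc⟩ := h
    have hc0 : c ≠ 0 := by
      rintro rfl
      rw [zero_smul] at hc
      exact z.rep_nonzero hc.symm
    have h1 := Finset.prod_ne_zero_iff.1 (right_ne_zero_of_mul hP) z (hfin.mem_toFinset.2 hz)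
    apply h1
    have h2 := hl z c⁻¹
    rw [← hc, smul_smul, inv_mul_cancel₀ hc0, one_smul] at h2
    exact h2
  obtain ⟨F, G, hF, hG, hrel, hI⟩ := hg P hP1 (prj P) (ker_prj hP3)
  have hF0 : F ≠ 0 := by
    rintro rfl
    exact not_isUnit_of_hom hG (ha.trans hab) (isRelPrime_zero_left.1 hrel)
  have hG0 : G ≠ 0 := by
    rintro rfl
    exact not_isUnit_of_hom hF ha (isRelPrime_zero_right.1 hrel)
  have hlt := map_lt hP3 hPZ hnd hF hG hG0 hrel hI (ha.trans had) hd
  have h3 := Submodule.finrank_lt_finrank_of_lt hlt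
  have h1 := finrank_map_add (homogeneousSubmodule (Fin (2 + 1)) K d) (ev3 Z P)
  have h2 := finrank_map_add (homogeneousSubmodule (Fin (3 + 1)) K d) (ev4 Z)
  rw [finrank_hom] at h1 h2
  have h4 : (idealOf Z).restrictScalars K ⊓ homogeneousSubmodule (Fin 4) K d =
      LinearMap.ker (ev4 Z) ⊓ homogeneousSubmodule (Fin 4) K d := by
    ext f
    simp only [Submodule.mem_inf, Submodule.restrictScalars_mem, mem_homogeneousSubmodule]
    refine and_congr_left fun hf => ?_
    rw [mem_idealOf_of_hom hf, LinearMap.mem_ker]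
    constructor
    · intro h
      funext z
      rw [ev4_apply, h z.1 z.2, Pi.zero_apply]
    · intro h z hz
      have := congrFun h ⟨z, hz⟩
      rwa [ev4_apply] at this
  have h5 : Module.finrank K ↥(LinearMap.ker (ev3 Z P) ⊓ homogeneousSubmodule (Fin 3) K d) ≤
      dimDeg (idealOf Z ⊓ pointIdeal P ^ d) d := by
    unfold dimDeg
    have e1 : Module.finrank K ↥(LinearMap.ker (ev3 Z P) ⊓ homogeneousSubmodule (Fin 3) K d) =
        Module.finrank K ↥((LinearMap.ker (ev3 Z P) ⊓ homogeneousSubmodule (Fin 3) K d).map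
          (pull P).toLinearMap) :=
      LinearEquiv.finrank_eq (Submodule.equivMapOfInjective (pull P).toLinearMap
        (pull_injective hP3) _)
    rw [e1]
    have hfd : FiniteDimensional K ↥((idealOf Z ⊓ pointIdeal P ^ d).restrictScalars K ⊓
        homogeneousSubmodule (Fin 4) K d) := Submodule.finiteDimensional_of_le inf_le_right
    apply Submodule.finrank_mono
    rintro _ ⟨f, ⟨hf1, hf2⟩, rfl⟩
    have hf1' : ev3 Z P f = 0 := hf1
    have hf2' : f.IsHomogeneous d := hf2
    refine ⟨?_, pull_hom P hf2'⟩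
    refine ⟨?_, pull_mem_pow P hf2'⟩
    refine (mem_idealOf_of_hom (pull_hom P hf2')).2 fun z hz => ?_
    rw [eval_pull]
    have := congrFun hf1' ⟨z, hz⟩
    rwa [ev3_apply] at this
  have h6 : 0 < Module.finrank K
      ↥(LinearMap.ker (ev3 Z P) ⊓ homogeneousSubmodule (Fin 3) K d) := by
    have hfd : FiniteDimensional K ↥(LinearMap.ker (ev3 Z P) ⊓ homogeneousSubmodule (Fin 3) K d) :=
      Submodule.finiteDimensional_of_le inf_le_right
    rw [Module.finrank_pos_iff, Submodule.nontrivial_iff_ne_bot, Submodule.ne_bot_iff]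
    refine ⟨F * X 0 ^ (d - a), ⟨?_, ?_⟩, mul_ne_zero hF0 (pow_ne_zero _ (X_ne_zero _))⟩
    · change ev3 Z P _ = 0
      funext z
      rw [ev3_apply, map_mul]
      have hFI : F ∈ imageIdeal Z (prj P) := by
        rw [hI]
        exact Ideal.subset_span (by simp)
      rw [mem_imageIdeal_of_hom hF] at hFI
      rw [hFI z.1 z.2, zero_mul, Pi.zero_apply]
    · change (F * X 0 ^ (d - a)).IsHomogeneous d
      have := hF.mul (isHomogeneous_X_pow (R := K) (0 : Fin 3) (d - a))
      rw [show a + (d - a) = d by omega] at this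
      exact this
  have h7 : dimDeg (idealOf Z) d =
      Module.finrank K ↥(LinearMap.ker (ev4 Z) ⊓ homogeneousSubmodule (Fin 4) K d) := by
    unfold dimDeg
    rw [h4]
  have h8 : (3 + d).choose 3 = (2 + d).choose 2 + (d + 2).choose 3 := by
    rw [show 3 + d = (d + 2) + 1 by ring, show 2 + d = d + 2 by ring]
    exact Nat.choose_succ_succ (d + 2) 2
  change Module.finrank K ↥((homogeneousSubmodule (Fin 3) K d).map (ev3 Z P)) +
    Module.finrank K ↥(LinearMap.ker (ev3 Z P) ⊓ homogeneousSubmodule (Fin 3) K d) = _ at h1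
  change Module.finrank K ↥((homogeneousSubmodule (Fin 4) K d).map (ev4 Z)) +
    Module.finrank K ↥(LinearMap.ker (ev4 Z) ⊓ homogeneousSubmodule (Fin 4) K d) = _ at h2
  rw [max_lt_iff]
  constructor
  · exact_mod_cast h6.trans_le h5
  · rw [h7]
    have h9 : Module.finrank K ↥(LinearMap.ker (ev4 Z) ⊓ homogeneousSubmodule (Fin 4) K d) <
        (d + 2).choose 3 + dimDeg (idealOf Z ⊓ pointIdeal P ^ d) d := by
      omega
    have h10 := (Nat.cast_lt (α := ℤ)).2 h9
    push_cast at h10 ⊢
    linarith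

end Pool.Agent.R862.GU
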